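import Pool.Agent.Q5.AP.ErrQ

/-!
# The error in the formula of Birch and Swinnerton-Dyer swings in a positive proportion of the blocks

Let `E : y² = x³ + a x + b` be an elliptic curve over `ℚ`, `f` its newform, `Λ` its completed `L`-function, `F` the
entire continuation of its incomplete `L`-series (the Euler factors at the primes dividing `2Δ` are removed), `N_p`
the number of affine points modulo `p`,

`P(x) = ∏_{p ≤ x} (N_p + 1)/p`,  `P*(x) = P(x) exp (∑_{√x < p ≤ x} (a_p² - 2p)/(2p²))`

the original product of Birch and Swinnerton-Dyer with the SHARP cut-off, and the same product with the second order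
terms. For real `ρ` and `A > 0` put `δ*(x) = log (A P*(x) / (e^γ log x)^ρ)`; let `m_t` be the order of `Λ` at `1 + it`.
`Formula F ρ A` says that `ρ = r = ord_{s=1} F` and `F^(r)(1)/r! = A`. Divide `(1, ∞)` into the blocks
`(e^(kL), e^((k+1)L)]`, `k = 0, 1, 2, …`. A block SWINGS with the amplitude `c` if `log x · δ*(x)` takes a value `> c` and
a value `< -c` in it. The following is shown for every such curve, every real `ρ` and every `A > 0`.

1. If all zeros of `Λ` are on the line `Re s = 1` and `Formula F ρ A` holds, then `Λ` has zeros `1 + it`, `t ≠ 0`, the sum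
   `V = ∑_{t ≠ 0} m_t²/t²` converges, and for each `t ≠ 0`, `0 ≤ c < m_t/(2|t|)` and `ε > 0` there is an `L₀` such that for
   all `L ≥ L₀` the proportion of the swinging blocks among the first `n` blocks is at least
   `(m_t/|t| - 2c)²/V - ε` for all large `n`.
2. UNCONDITIONALLY: either the mean square `(log X)⁻¹ ∫_e^X (log x · δ*(x))² dx/x` is unbounded, or there are
   `c, κ, L₀ > 0` such that for all `L ≥ L₀` at least `κ n` of the first `n` blocks swing with the amplitude `c`.

The same is proved for the original product, with `δ(x) = log (A P(x) / (√2 (e^γ log x)^ρ))`, under the hypothesis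
`log x · (∑_{√x < p ≤ x} (a_p² - 2p)/(2p²) + (log 2)/2) → 0`, the theorem of Rankin and Selberg with a zero-free region.

So if the error in the formula `P*(x) ≈ (e^γ log x)^r/A` has the order `1/log x` in square mean, which is equivalent to
the rank and leading-term formulas (for the predicted `ρ` and `A`) together with the Riemann hypothesis for `E`, then
`P*(x)` exceeds its predicted value by a factor `1 + c/log x` and falls below it by a factor `1 - c/log x` in a positive
proportion of all blocks `(X, CX]`; in particular the number of changes of sign of `δ*` up to `X` is at least a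
constant times `log X`. In `Oscillation` of problem `MP_92892c_nt` it is shown that the sets where
`log x · δ* > c` and where `log x · δ* < -c` both have positive lower logarithmic density; this says nothing about the
number of changes of sign, or about the gaps between them. The proof (`Pool.Agent.Q5.AP.Blocks`) compares the error
with a partial sum of its Fourier series, the integrals of which over all intervals are bounded, since it has no
constant term.
-/

set_option autoImplicit false

namespace Pool.Agent.Results.MP_4a9ea6_nt.BlockOscillation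

open Pool.Agent.W263.BSD Filter Topology Classical MeasureTheory Set Complex
open CongruenceSubgroup
open scoped MatrixGroups
open Pool.Agent.Results.MP_92892c_nt.ExactMeanSquareRational (devStar dev squares mult BoundedMeanSquare)
open Pool.Agent.Results.MP_4a9ea6_nt.SimpleZeros (IsFormOf IsCompleted RH Formula)

/-- The number of the `k < n` such that `W` takes a value `> c` and a value `< -c` in `(e^(kL), e^((k+1)L)]`. -/
noncomputable def swingCount (W : ℝ → ℝ) (c L : ℝ) (n : ℕ) : ℕ :=
  ((Finset.range n).filter fun k : ℕ =>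
    (∃ x : ℝ, Real.exp (k * L) < x ∧ x ≤ Real.exp ((k + 1) * L) ∧ c < W x) ∧
    ∃ x : ℝ, Real.exp (k * L) < x ∧ x ≤ Real.exp ((k + 1) * L) ∧ W x < -c).card

/-- `V = ∑ m_t²/t²` converges, and for `t ≠ 0`, `0 ≤ c < m_t/(2|t|)`, `ε > 0` and all large `L` at least
`((m_t/|t| - 2c)²/V - ε) n` of the first `n` blocks swing with the amplitude `c`, for all large `n`. -/
def Blocks (Λ : ℂ → ℂ) (δ : ℝ → ℝ) : Prop :=
  ∃ V : ℝ, HasSum (fun t : ℝ => ((mult Λ t : ℝ) / t) ^ 2) V ∧
    ∀ t c : ℝ, t ≠ 0 → 0 ≤ c → 2 * c < (mult Λ t : ℝ) / |t| → ∀ ε : ℝ, 0 < ε →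
      ∃ L₀ : ℝ, 0 < L₀ ∧ ∀ L : ℝ, L₀ ≤ L → ∀ᶠ n : ℕ in atTop,
        (((mult Λ t : ℝ) / |t| - 2 * c) ^ 2 / V - ε) * n ≤ swingCount (fun x => Real.log x * δ x) c L n

/-- There are `c, κ, L₀ > 0` such that for all `L ≥ L₀` at least `κ n` of the first `n` blocks swing with the
amplitude `c`, for all large `n`. -/
def SwingsOften (δ : ℝ → ℝ) : Prop :=
  ∃ c κ L₀ : ℝ, 0 < c ∧ 0 < κ ∧ 0 < L₀ ∧ ∀ L : ℝ, L₀ ≤ L → ∀ᶠ n : ℕ in atTop,
    κ * n ≤ swingCount (fun x => Real.log x * δ x) c L n

/-- The parts 1 and 2. -/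
def Swinging (F Λ : ℂ → ℂ) (ρ A : ℝ) (δ : ℝ → ℝ) : Prop :=
  (RH Λ → Formula F ρ A → Blocks Λ δ) ∧ (¬ BoundedMeanSquare δ ∨ SwingsOften δ)

open Pool.Agent.Q5.AP (errQ IsErr blocks_of)

theorem swing_eq (W : ℝ → ℝ) (c L : ℝ) (n : ℕ) :
    Pool.Agent.Q5.AP.swingCount W c L n = swingCount W c L n := by
  unfold Pool.Agent.Q5.AP.swingCount swingCount
  congr 1
  ext k
  simp only [Finset.mem_filter]
  rfl

/-- **The error swings in a positive proportion of the blocks.** -/
theorem result (a b : ℤ) (hΔ : 4 * a ^ 3 + 27 * b ^ 2 ≠ 0) (F : ℂ → ℂ) (hF : IsLSeries a b F)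
    (N : ℕ) [NeZero N] (f : CuspForm (Gamma0 N : Subgroup (GL (Fin 2) ℝ)) 2) (w : ℝ)
    (hf : IsFormOf a b N f w) :
    ∃ Λ : ℂ → ℂ, IsCompleted f Λ ∧ (∀ Λ', IsCompleted f Λ' → Λ' = Λ) ∧
      (∀ s : ℂ, Λ (2 - s) = (w : ℂ) * Λ s) ∧
      (RH Λ → ∃ t : ℝ, t ≠ 0 ∧ Λ (1 + t * I) = 0 ∧ 0 < mult Λ t) ∧
      ∀ ρ A : ℝ, 0 < A → Swinging F Λ ρ A (devStar a b ρ A) ∧
        (Tendsto (fun x : ℝ => Real.log x * (squares a b x + Real.log 2 / 2)) atTop (𝓝 0) →
          Swinging F Λ ρ A (dev a b ρ A)) := by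
  obtain ⟨Λ, hΛ, huniq, hfe, hlink, hzero, herr⟩ := errQ hΔ hF hf
  have hz : RH Λ → ∃ t : ℝ, t ≠ 0 ∧ Λ (1 + t * I) = 0 ∧ 0 < mult Λ t := by
    intro hR
    obtain ⟨t, ht, h0⟩ := hzero hR
    refine ⟨t, ht, h0, ?_⟩
    obtain ⟨r, hr⟩ := Pool.Agent.W189.ML.order_finite_all hF (1 + t * I)
    rw [hlink _ (by simp)] at hr
    unfold mult
    rw [hr]
    have h5 : analyticOrderAt Λ (1 + t * I) ≠ 0 := by
      rw [(hΛ.1.analyticAt _).analyticOrderAt_ne_zero]
      exact h0
    rw [hr] at h5
    have h6 : r ≠ 0 := fun h => h5 (by rw [h]; rfl)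
    show 0 < r
    omega
  have key : ∀ (ρ A : ℝ) (δ : ℝ → ℝ), 0 < A → IsErr a b ρ A δ → Swinging F Λ ρ A δ := by
    intro ρ A δ hA hδ
    obtain ⟨hW, hiff, hpar⟩ := herr ρ A δ hA hδ
    have h1 : RH Λ → Formula F ρ A → Blocks Λ δ := by
      intro hR hFm
      obtain ⟨V, hV, hp⟩ := hpar ⟨hR, hFm⟩
      refine ⟨V, hV, fun t c _ hc hct ε hε => ?_⟩
      have h3 := blocks_of hp hc hct hε
      simp only [swing_eq] at h3
      exact h3
    refine ⟨h1, ?_⟩
    by_cases hb : BoundedMeanSquare δ
    · right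
      obtain ⟨hR, hFm⟩ := hiff.2 hb
      obtain ⟨t, ht, -, hm⟩ := hz hR
      obtain ⟨V, hV, h2⟩ := h1 hR hFm
      have hm' : (0 : ℝ) < (mult Λ t : ℝ) / |t| := div_pos (by exact_mod_cast hm) (abs_pos.2 ht)
      set D : ℝ := (mult Λ t : ℝ) / |t| with hD
      have hVpos : 0 < V := by
        have h3 : ((mult Λ t : ℝ) / t) ^ 2 ≤ V := le_hasSum hV t fun s _ => sq_nonneg _
        have h4 : ((mult Λ t : ℝ) / t) ^ 2 = D ^ 2 := by
          rw [hD, div_pow, div_pow, sq_abs]
        have h5 : 0 < D ^ 2 := by positivity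
        linarith
      set q : ℝ := (D / 2) ^ 2 / V with hq
      have hq0 : 0 < q := by positivity
      obtain ⟨L₀, hL₀, h3⟩ := h2 t (D / 4) ht (by positivity) (by rw [← hD]; linarith) (q / 2)
        (by positivity)
      refine ⟨D / 4, q / 2, L₀, by positivity, by positivity, hL₀, fun L hL => ?_⟩
      filter_upwards [h3 L hL] with n hn
      refine le_trans (le_of_eq ?_) hn
      rw [← hD, hq]
      ring
    · exact Or.inl hb
  exact ⟨Λ, hΛ, huniq, hfe, hz, fun ρ A hA => ⟨key ρ A _ hA (Or.inl rfl),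
    fun hc => key ρ A _ hA (Or.inr ⟨hc, rfl⟩)⟩⟩

end Pool.Agent.Results.MP_4a9ea6_nt.BlockOscillation
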