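import Mathlib
import Pool.Agent.Q17.IG.Prp

/-!
# Rank zero in the family of the curves with a cyclic isogeny of degree 4, by conductor

All elliptic curves `E` over `ℚ` with a rational cyclic subgroup of order 4 are ordered by the
conductor, without any bound on the height or on the discriminant. A positive proportion of them has
rank zero and a Tate-Shafarevich group without elements of order 4.

The Tate-Shafarevich group is that of `Pool.Agent.TH841.SH.ShaDef`: continuous cocycles of the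
absolute Galois group of `ℚ` with values in the points over the algebraic closure, locally trivial at
all the places of `ℚ`, modulo the coboundaries. The condition `Cyclic4 A B` is defined in
`Pool.Agent.Q17.IG.Cyc`: there is a point `P` of order 4 of `y² = x³ + A x + B` over the algebraic
closure of `ℚ` such that `σ P = P` or `σ P = -P` for all automorphisms `σ`.
-/

set_option autoImplicit false

namespace Pool.Agent.Results.MP_6073f3_nt.CyclicFourRankZero

open Finset Filter Topology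

open Pool.Agent.TH841.SH.D (Sha rk)

open Pool.Agent.Q17.IG (Cyclic4)

/-- the curve `y² = x³ + A x + B`, `c = (A, B)` -/
def E (c : ℤ × ℤ) : WeierstrassCurve ℚ := ⟨0, 0, 0, (c.1 : ℚ), (c.2 : ℚ)⟩

/-- The prime-to-6 part of the conductor of `y² = x³ + A x + B` (there is no prime `p` with `p⁴ ∣ A`
and `p⁶ ∣ B`): the product over the primes `p ≥ 5` dividing `4 A³ + 27 B²` of `p` (multiplicative
reduction: `p ∤ A`) or `p²` (additive reduction: `p ∣ A`) -/
def Cond6 (c : ℤ × ℤ) : ℕ :=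
  ∏ p ∈ (Int.natAbs (4 * c.1 ^ 3 + 27 * c.2 ^ 2)).primeFactors.filter (fun p => 5 ≤ p),
    if (p : ℤ) ∣ c.1 then p ^ 2 else p

/-- the admissible factors: functions with values between `1` and `2 ^ 8 * 3 ^ 5`, for instance the
part of the conductor composed of the primes 2 and 3, or `f = 1` -/
def Factor (f : ℤ × ℤ → ℕ) : Prop := ∀ c, 1 ≤ f c ∧ f c ≤ 2 ^ 8 * 3 ^ 5

/-- The pairs `(A, B)` of integers such that `4 A³ + 27 B² ≠ 0`, there is no prime `p` with
`p⁴ ∣ A` and `p⁶ ∣ B`, `y² = x³ + A x + B` has a rational cyclic subgroup of order 4, and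
`f * Cond6 ≤ Z` (for a suitable factor `f`: the conductor is at most `Z`). Every elliptic curve over
`ℚ` with a rational cyclic subgroup of order 4 is isomorphic to `E` of exactly one pair with the first
three properties. -/
def Fam (f : ℤ × ℤ → ℕ) (Z : ℕ) : Set (ℤ × ℤ) :=
  {c : ℤ × ℤ | 4 * c.1 ^ 3 + 27 * c.2 ^ 2 ≠ 0 ∧
    (∀ p : ℕ, p.Prime → ¬ ((p : ℤ) ^ 4 ∣ c.1 ∧ (p : ℤ) ^ 6 ∣ c.2)) ∧
    Cyclic4 c.1 c.2 ∧ f c * Cond6 c ≤ Z}

/-- the proportion of the curves of `S` in the family -/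
noncomputable def proportion (f : ℤ × ℤ → ℕ) (S : Set (ℤ × ℤ)) (Z : ℕ) : ℝ :=
  ((Fam f Z ∩ S).ncard : ℝ) / (Fam f Z).ncard

/-- the curves of rank zero such that no element of the Tate-Shafarevich group has order 4 (every
element of 2-power order is killed by 2) -/
def RankZero : Set (ℤ × ℤ) :=
  {c | rk (E c) = 0 ∧ ∀ (k : ℕ) (x : Sha (E c)), (2 ^ k : ℕ) • x = 0 → x + x = 0}

/-! ### Proofs -/

lemma cond_eq (c : ℤ × ℤ) : Pool.Agent.Y679.Cr.cs c = Cond6 c := by
  unfold Pool.Agent.Y679.Cr.cs Pool.Agent.H925R.Szpiro.condS Cond6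
  rw [Pool.Agent.Y679.Cr.D_neg, Int.natAbs_neg]
  refine prod_congr rfl fun p _ => ?_
  by_cases h : (p : ℤ) ∣ c.1
  · rw [if_pos h, if_pos (Int.dvd_neg.2 h)]
  · rw [if_neg h, if_neg fun h' => h (Int.dvd_neg.1 h')]

lemma bdd {f : ℤ × ℤ → ℕ} (hf : Factor f) : Pool.Agent.Y679.Cr.Bdd f :=
  fun c => ⟨(hf c).1, (hf c).2.trans (by norm_num)⟩

lemma Fam_eq (f : ℤ × ℤ → ℕ) (Z : ℕ) :
    Fam f Z = Pool.Agent.Y679.Cr.Gm Pool.Agent.Q17.IG.P4 f Z := by
  ext c
  unfold Fam Pool.Agent.Y679.Cr.Gm Pool.Agent.Q17.IG.P4 Pool.Agent.Q17.IG.Rd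
  rw [Set.mem_ofPred_eq, Set.mem_ofPred_eq, cond_eq]
  constructor
  · rintro ⟨h1, h2, h3, h4⟩
    exact ⟨⟨h1, h2, (Pool.Agent.Q17.IG.cyclic4_iff h1).1 h3⟩, h4⟩
  · rintro ⟨⟨h1, h2, h3⟩, h4⟩
    exact ⟨h1, h2, (Pool.Agent.Q17.IG.cyclic4_iff h1).2 h3, h4⟩

/-- **Theorem.** Order the elliptic curves over `ℚ` with a rational cyclic subgroup of order 4 by the
conductor (times an arbitrary factor as in `Factor`), with no bound on the height or on the
discriminant. There are finitely many curves of size at most `Z`, and their number tends to infinity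
with `Z`. A positive proportion of these curves has rank zero and a Tate-Shafarevich group without
elements of order 4: the lower density is at least `δ > 0`, and `δ` does not depend on the factor. -/
theorem result :
    (∀ f : ℤ × ℤ → ℕ, Factor f → (∀ Z : ℕ, (Fam f Z).Finite) ∧
      Tendsto (fun Z : ℕ => (Fam f Z).ncard) atTop atTop) ∧
    ∃ δ : ℝ, 0 < δ ∧ ∀ f : ℤ × ℤ → ℕ, Factor f →
      ∀ᶠ Z : ℕ in atTop, δ ≤ proportion f RankZero Z := by
  refine ⟨fun f hf => ⟨fun Z => ?_, ?_⟩, ?_⟩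
  · rw [Fam_eq]
    exact Pool.Agent.Q17.IG.G4_fin (bdd hf) Z
  · obtain ⟨c, Z0, hc, h⟩ := Pool.Agent.Q17.IG.G4_ge
    rw [← tendsto_natCast_atTop_iff (R := ℝ)]
    refine tendsto_atTop_mono' atTop (eventually_atTop.2 ⟨Z0, fun Z hZ => ?_⟩)
      (Tendsto.const_mul_atTop hc ((tendsto_rpow_atTop (by norm_num : (0 : ℝ) < 2 / 3)).comp
        tendsto_natCast_atTop_atTop))
    have := h f (bdd hf) Z hZ
    rw [← Fam_eq] at this
    exact this
  · obtain ⟨δ, hδ, h⟩ := Pool.Agent.Q17.IG.posC4 Pool.Agent.Q17.IG.sel4_pos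
    refine ⟨δ, hδ, fun f hf => ?_⟩
    filter_upwards [h f (bdd hf)] with Z hZ
    refine hZ.trans ?_
    unfold proportion
    rw [Fam_eq]
    refine div_le_div_of_nonneg_right (Nat.cast_le.2 (Set.ncard_le_ncard ?_
      ((Pool.Agent.Q17.IG.G4_fin (bdd hf) Z).subset Set.inter_subset_left))) (Nat.cast_nonneg _)
    rintro c ⟨h1, h2⟩
    exact ⟨h1, Pool.Agent.Q17.IG.zero4 h2⟩

end Pool.Agent.Results.MP_6073f3_nt.CyclicFourRankZero
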