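import Mathlib
import Pool.Agent.Q17.IG.Prp

/-!
# Rank zero in the family of the curves with a cyclic isogeny of degree 4, by height

All elliptic curves `E` over `ℚ` with a rational cyclic subgroup of order 4 are ordered by height. A
positive proportion of them has rank zero and a Tate-Shafarevich group without elements of order 4.

The Tate-Shafarevich group is that of `Pool.Agent.TH841.SH.ShaDef`: continuous cocycles of the
absolute Galois group of `ℚ` with values in the points over the algebraic closure, locally trivial at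
all the places of `ℚ`, modulo the coboundaries. The condition `Cyclic4 A B` is defined in
`Pool.Agent.Q17.IG.Cyc`: there is a point `P` of order 4 of `y² = x³ + A x + B` over the algebraic
closure of `ℚ` such that `σ P = P` or `σ P = -P` for all automorphisms `σ`.
-/

set_option autoImplicit false

namespace Pool.Agent.Results.MP_788af2_nt.CyclicFourRankZero

open Finset Filter Topology

open Pool.Agent.TH841.SH.D (Sha rk)

open Pool.Agent.Q17.IG (Cyclic4)

/-- the curve `y² = x³ + A x + B`, `c = (A, B)` -/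
def E (c : ℤ × ℤ) : WeierstrassCurve ℚ := ⟨0, 0, 0, (c.1 : ℚ), (c.2 : ℚ)⟩

open Classical in
/-- The pairs `(A, B)` of integers such that `4 A³ + 27 B² ≠ 0`, there is no prime `p` with
`p⁴ ∣ A` and `p⁶ ∣ B`, the height `max (4 |A|³) (27 B²)` is at most `H`, and `y² = x³ + A x + B` has a
rational cyclic subgroup of order 4. (The bounds `|A|, |B| ≤ H` follow from the bound of the height.
Every elliptic curve over `ℚ` is isomorphic to `E` of exactly one pair with the first two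
properties.) -/
noncomputable def Fam (H : ℕ) : Finset (ℤ × ℤ) :=
  ((Icc (-(H : ℤ)) H) ×ˢ (Icc (-(H : ℤ)) H)).filter (fun c : ℤ × ℤ =>
    4 * c.1 ^ 3 + 27 * c.2 ^ 2 ≠ 0 ∧ 4 * |c.1| ^ 3 ≤ H ∧ 27 * c.2 ^ 2 ≤ H ∧
    (∀ p : ℕ, p.Prime → ¬ ((p : ℤ) ^ 4 ∣ c.1 ∧ (p : ℤ) ^ 6 ∣ c.2)) ∧ Cyclic4 c.1 c.2)

/-- the curves of rank zero such that no element of the Tate-Shafarevich group has order 4 (every
element of 2-power order is killed by 2) -/
def RankZero (c : ℤ × ℤ) : Prop :=
  rk (E c) = 0 ∧ ∀ (k : ℕ) (x : Sha (E c)), (2 ^ k : ℕ) • x = 0 → x + x = 0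

/-! ### Proofs -/

lemma Fam_eq : Fam = Pool.Agent.Q17.IG.Fm := by
  classical
  funext H
  unfold Fam Pool.Agent.Q17.IG.Fm
  apply filter_congr
  intro c _
  constructor
  · rintro ⟨h1, h2, h3, h4, h5⟩
    exact ⟨h1, h2, h3, h4, (Pool.Agent.Q17.IG.cyclic4_iff h1).1 h5⟩
  · rintro ⟨h1, h2, h3, h4, h5⟩
    exact ⟨h1, h2, h3, h4, (Pool.Agent.Q17.IG.cyclic4_iff h1).2 h5⟩

lemma root6 (H : ℕ) : ∃ M : ℝ, 0 ≤ M ∧ M ^ 6 = H ∧ (H : ℝ) ^ ((1 : ℝ) / 3) = M ^ 2 := by
  refine ⟨(H : ℝ) ^ ((1 : ℝ) / 6), by positivity, ?_, ?_⟩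
  · rw [← Real.rpow_natCast, ← Real.rpow_mul (Nat.cast_nonneg H)]
    norm_num
  · rw [← Real.rpow_natCast, ← Real.rpow_mul (Nat.cast_nonneg H)]
    norm_num

open Classical in
/-- **Theorem.** The number of the elliptic curves over `ℚ` of height at most `H` with a rational
cyclic subgroup of order 4 is between `c H ^ (1/3)` and `C H ^ (1/3)` for large `H`. A positive
proportion of these curves (the lower density is positive) has rank zero and a Tate-Shafarevich group
without elements of order 4. -/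
theorem result :
    (∃ c C : ℝ, 0 < c ∧ ∀ᶠ H : ℕ in atTop, c * (H : ℝ) ^ ((1 : ℝ) / 3) ≤ ((Fam H).card : ℝ) ∧
      ((Fam H).card : ℝ) ≤ C * (H : ℝ) ^ ((1 : ℝ) / 3)) ∧
    ∃ δ : ℝ, 0 < δ ∧ ∀ᶠ H : ℕ in atTop,
      δ * ((Fam H).card : ℝ) ≤ (((Fam H).filter RankZero).card : ℝ) := by
  refine ⟨⟨1 / 39762, 841, by norm_num, ?_⟩, ?_⟩
  · filter_upwards [eventually_ge_atTop (100 ^ 6)] with H hH
    obtain ⟨M, hM0, hM, hM2⟩ := root6 H
    have h100 : 100 ≤ M := by
      have : (100 : ℝ) ^ 6 ≤ M ^ 6 := by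
        rw [hM]
        exact_mod_cast hH
      exact (pow_le_pow_iff_left₀ (by norm_num) hM0 (by norm_num)).1 this
    rw [hM2, Fam_eq]
    refine ⟨?_, Pool.Agent.Q17.IG.Fm_up H M (by linarith) hM⟩
    obtain ⟨m, hm⟩ : ∃ m : ℕ, m = ⌊M / 6⌋₊ := ⟨_, rfl⟩
    have h1 : (m : ℝ) ≤ M / 6 := by
      rw [hm]
      exact Nat.floor_le (by positivity)
    have h2 : M / 6 < m + 1 := by
      rw [hm]
      exact Nat.lt_floor_add_one _
    have h3 : 16384 * m ^ 6 ≤ H := by
      have h4 : (m : ℝ) ^ 6 ≤ (M / 6) ^ 6 := pow_le_pow_left₀ (Nat.cast_nonneg m) h1 6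
      rw [div_pow, hM] at h4
      have h5 : 16384 * (m : ℝ) ^ 6 ≤ H := by
        have h6 : (0 : ℝ) ≤ H := Nat.cast_nonneg H
        calc 16384 * (m : ℝ) ^ 6 ≤ 16384 * ((H : ℝ) / 6 ^ 6) :=
              mul_le_mul_of_nonneg_left h4 (by norm_num)
          _ ≤ H := by
              rw [← mul_div_assoc, div_le_iff₀ (by norm_num)]
              nlinarith
      exact_mod_cast h5
    have h4 := Pool.Agent.Q17.IG.Fm_low h3
    refine le_trans ?_ h4
    have h5 : M / 8 ≤ m := by linarith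
    have h6 : (M / 8) ^ 2 ≤ (m : ℝ) ^ 2 := pow_le_pow_left₀ (by positivity) h5 2
    have h7 : (M / 8) ^ 2 = M ^ 2 / 64 := by ring
    rw [h7] at h6
    have h8 : 0 ≤ M ^ 2 := by positivity
    linarith
  · obtain ⟨δ, hδ, H0, h⟩ := Pool.Agent.Q17.IG.posH4 Pool.Agent.Q17.IG.sel4_pos
    refine ⟨δ, hδ, ?_⟩
    filter_upwards [eventually_ge_atTop H0] with H hH
    have h1 := h H hH
    rw [← Fam_eq] at h1
    refine h1.trans ?_
    have h2 : (Fam H).filter (Pool.Agent.Q17.IG.Q4 Pool.Agent.Q17.IG.Sel4) ⊆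
        (Fam H).filter RankZero := by
      intro c hc
      rw [mem_filter] at hc ⊢
      exact ⟨hc.1, Pool.Agent.Q17.IG.zero4 hc.2⟩
    exact_mod_cast card_le_card h2

end Pool.Agent.Results.MP_788af2_nt.CyclicFourRankZero
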