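import Pool.Agent.Q5.AP.Two

/-!
# The error in the formula of Birch and Swinnerton-Dyer determines the curve up to isogeny

Let `E : y² = x³ + a x + b` be an elliptic curve over `ℚ`, `f` its newform, `Λ` its completed `L`-function, `F` the
entire continuation of its incomplete `L`-series (the Euler factors at the primes dividing `2Δ` are removed), `N_p`
the number of affine points modulo `p`,

`P(x) = ∏_{p ≤ x} (N_p + 1)/p`,  `P*(x) = P(x) exp (∑_{√x < p ≤ x} (a_p² - 2p)/(2p²))`

the original product of Birch and Swinnerton-Dyer with the SHARP cut-off, and the same product with the second order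
terms. If `L(E, 1) ≠ 0`, the product `P*(x)` is expected to converge to `1/A`, `A = F(1)`; in general it should be
asymptotic to `(e^γ log x)^r/A`, where `r = ord_{s=1} F` and `A = F^(r)(1)/r!` (`Formula F r A`). For real `ρ` and `A > 0`
let `δ(x) = log (A P*(x) / (e^γ log x)^ρ)` be the error. By `ExactMeanSquareRational` of problem `MP_92892c_nt` the
mean square `(log X)⁻¹ ∫_e^X (log x · δ(x))² dx/x` is bounded if and only if all zeros of `Λ` are on the line
`Re s = 1` and `Formula F ρ A` holds; it tends then to `V = ∑_{t ≠ 0} m_t²/t²`, `m_t` the order of `Λ` at `1 + it`.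

Here TWO such curves `E`, `E'` are considered, with real `ρ`, `ρ'` and `A, A' > 0` and the errors `δ`, `δ'`. It is shown
that, if both mean squares are bounded (equivalently: if for both curves the formula with the given `ρ`, `A` and the
Riemann hypothesis hold), then

* the covariances `(log X)⁻¹ ∫_e^X (log x · δ(x)) (log x · δ'(x)) dx/x` tend to `K = ∑_{t ≠ 0} m_t m'_t/t² ≥ 0`, so the two
  errors are never negatively correlated, and `K = 0` if and only if `Λ` and `Λ'` have no common zeros `1 + it`, `t ≠ 0`;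
* the mean squares of `log x · (δ(x) - δ'(x))` tend to `D = ∑_{t ≠ 0} (m_t - m'_t)²/t²`; here `δ - δ'` is the logarithm of
  the ratio of the two products, divided by its predicted value, which is `A'/A` if `ρ = ρ'`;
* `V, V' > 0` and `K² ≤ V V'`, and the following are equivalent: `D = 0` (the two errors agree in square mean to the
  order `o(1/log x)`); `K² = V V'` (the correlation coefficient of the two errors is `1`); `Λ = Λ'`; `E` and `E'` have the
  same number of points modulo almost all primes (by Faltings: they are isogenous); the levels and all coefficients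
  of the two newforms are equal.

So the size of the error in the formula for `L(E, 1)` (or for the leading coefficient) not only has the exact order
`1/log x` in square mean: two curves have the same error, or proportional errors, up to `o(1/log x)`, only if they are
isogenous; and the formulas for the ratio `A'/A` of the central values of two curves which are not isogenous never hold
with an error `o(1/log x)`. The same is proved for the original products, with
`δ(x) = log (A P(x) / (√2 (e^γ log x)^ρ))`, under the hypothesis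
`log x · (∑_{√x < p ≤ x} (a_p² - 2p)/(2p²) + (log 2)/2) → 0`, the theorem of Rankin and Selberg with a zero-free region.

Proof: Parseval's formula for the errors (`Pool.Agent.Q5.AP`), and the theorem that the zeros `≠ 1` of `Λ`, even up
to a constant factor of the multiplicities, determine `Λ` and the newform (`Pool.Agent.Q5.SZ.Deter`).
-/

set_option autoImplicit false

namespace Pool.Agent.Results.MP_9c97e9_nt.CorrelationOfCurves

open Pool.Agent.W263.BSD Filter Topology Classical MeasureTheory Set Complex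
open CongruenceSubgroup
open scoped MatrixGroups
open Pool.Agent.Results.MP_8b7eba_nt.OneWindow (coef)
open Pool.Agent.Results.MP_92892c_nt.ExactMeanSquareRational (devStar dev squares mult meanSquare BoundedMeanSquare)
open Pool.Agent.Results.MP_4a9ea6_nt.SimpleZeros (IsFormOf IsCompleted RH Formula)

/-- `(log X)⁻¹ ∫_e^X (log x · δ(x)) (log x · δ'(x)) dx/x`. -/
noncomputable def covariance (δ δ' : ℝ → ℝ) (X : ℝ) : ℝ :=
  (∫ x in Real.exp 1..X, (Real.log x * δ x) * (Real.log x * δ' x) / x) / Real.log X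

/-- The errors: `δ(x) = log (A P*(x) / (e^γ log x)^ρ)`, or `δ(x) = log (A P(x) / (√2 (e^γ log x)^ρ))` if
`log x · (∑_{√x < p ≤ x} (a_p² - 2p)/(2p²) + (log 2)/2) → 0`. -/
def IsError (a b : ℤ) (ρ A : ℝ) (δ : ℝ → ℝ) : Prop :=
  δ = devStar a b ρ A ∨
    (Tendsto (fun x : ℝ => Real.log x * (squares a b x + Real.log 2 / 2)) atTop (𝓝 0) ∧
      δ = dev a b ρ A)

/-- The numbers of points agree for all but finitely many primes. -/
def SamePoints (a b a' b' : ℤ) : Prop :=
  ∃ D : ℕ, ∀ p : ℕ, p.Prime → D < p → pointCount a b p = pointCount a' b' p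

/-- The theorem for two errors with bounded mean squares. -/
def Correlation (a b a' b' : ℤ) {N N' : ℕ} (f : CuspForm (Gamma0 N : Subgroup (GL (Fin 2) ℝ)) 2)
    (f' : CuspForm (Gamma0 N' : Subgroup (GL (Fin 2) ℝ)) 2) (Λ Λ' : ℂ → ℂ) (δ δ' : ℝ → ℝ) : Prop :=
  ∃ V V' K D : ℝ,
    HasSum (fun t : ℝ => ((mult Λ t : ℝ) / t) ^ 2) V ∧ Tendsto (meanSquare δ) atTop (𝓝 V) ∧
    HasSum (fun t : ℝ => ((mult Λ' t : ℝ) / t) ^ 2) V' ∧ Tendsto (meanSquare δ') atTop (𝓝 V') ∧
    HasSum (fun t : ℝ => (mult Λ t : ℝ) * mult Λ' t / t ^ 2) K ∧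
    Tendsto (covariance δ δ') atTop (𝓝 K) ∧
    HasSum (fun t : ℝ => (((mult Λ t : ℝ) - mult Λ' t) / t) ^ 2) D ∧
    Tendsto (meanSquare fun x => δ x - δ' x) atTop (𝓝 D) ∧
    0 < V ∧ 0 < V' ∧ 0 ≤ K ∧ K ^ 2 ≤ V * V' ∧
    (K = 0 ↔ ∀ t : ℝ, t ≠ 0 → ¬ (Λ (1 + t * I) = 0 ∧ Λ' (1 + t * I) = 0)) ∧
    List.TFAE [D = 0, K ^ 2 = V * V', Λ = Λ', SamePoints a b a' b',
      N = N' ∧ ∀ n : ℕ, n ≠ 0 → coef f n = coef f' n]

open Pool.Agent.Q5.AP (errQ IsErr prod_mean diff_mean sum_zero_iff cs same_mult cut cm Par)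
open Pool.Agent.Q5.SZ (LamN completed_eq zeros_determine prop_eq ml)

theorem mult_zero_iff {Λ : ℂ → ℂ} (hΛ : Differentiable ℂ Λ) (hR : RH Λ) (t : ℝ) :
    mult Λ t = 0 ↔ Λ (1 + t * I) ≠ 0 := by
  have hfin : analyticOrderAt Λ (1 + t * I) ≠ ⊤ := by
    intro h8
    rw [analyticOrderAt_eq_top] at h8
    have han : AnalyticOnNhd ℂ Λ Set.univ := fun z _ => hΛ.analyticAt z
    have h9 := han.eqOn_zero_of_preconnected_of_eventuallyEq_zero isPreconnected_univ
      (Set.mem_univ _) h8
    have h10 : Λ (2 : ℂ) = 0 := h9 (Set.mem_univ _)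
    have := hR _ h10
    norm_num at this
  rw [← (hΛ.analyticAt _).analyticOrderAt_eq_zero]
  unfold mult
  rw [ENat.toNat_eq_zero]
  exact ⟨fun h => h.resolve_right hfin, Or.inl⟩

/-- **The covariance of the errors of two curves.** -/
theorem result (a b : ℤ) (hΔ : 4 * a ^ 3 + 27 * b ^ 2 ≠ 0) (F : ℂ → ℂ) (hF : IsLSeries a b F)
    (N : ℕ) [NeZero N] (f : CuspForm (Gamma0 N : Subgroup (GL (Fin 2) ℝ)) 2) (w : ℝ)
    (hf : IsFormOf a b N f w)
    (a' b' : ℤ) (hΔ' : 4 * a' ^ 3 + 27 * b' ^ 2 ≠ 0) (F' : ℂ → ℂ) (hF' : IsLSeries a' b' F')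
    (N' : ℕ) [NeZero N'] (f' : CuspForm (Gamma0 N' : Subgroup (GL (Fin 2) ℝ)) 2) (w' : ℝ)
    (hf' : IsFormOf a' b' N' f' w') :
    ∃ Λ Λ' : ℂ → ℂ, IsCompleted f Λ ∧ IsCompleted f' Λ' ∧
      ∀ (ρ A ρ' A' : ℝ) (δ δ' : ℝ → ℝ), 0 < A → 0 < A' → IsError a b ρ A δ → IsError a' b' ρ' A' δ' →
        ((BoundedMeanSquare δ ∧ BoundedMeanSquare δ') ↔
          ((RH Λ ∧ Formula F ρ A) ∧ (RH Λ' ∧ Formula F' ρ' A'))) ∧
        (BoundedMeanSquare δ → BoundedMeanSquare δ' → Correlation a b a' b' f f' Λ Λ' δ δ') := by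
  obtain ⟨Λ, hΛ, huniq, hfe, hlink, hzero, herr⟩ := errQ hΔ hF hf
  obtain ⟨Λ', hΛ', huniq', hfe', hlink', hzero', herr'⟩ := errQ hΔ' hF' hf'
  refine ⟨Λ, Λ', hΛ, hΛ', fun ρ A ρ' A' δ δ' hA hA' hδ hδ' => ?_⟩
  obtain ⟨hW, hiff, hpar⟩ := herr ρ A δ hA hδ
  obtain ⟨hW', hiff', hpar'⟩ := herr' ρ' A' δ' hA' hδ'
  refine ⟨by rw [hiff, hiff'], fun hb hb' => ?_⟩
  obtain ⟨hR, hFm⟩ := hiff.2 hb
  obtain ⟨hR', hFm'⟩ := hiff'.2 hb'
  obtain ⟨V, hV, P⟩ := hpar ⟨hR, hFm⟩
  obtain ⟨V', hV', P'⟩ := hpar' ⟨hR', hFm'⟩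
  obtain ⟨U, hU, tU⟩ := prod_mean hW hW P P
  obtain ⟨U', hU', tU'⟩ := prod_mean hW' hW' P' P'
  obtain ⟨K, hK, tK⟩ := prod_mean hW hW' P P'
  have eU : U = V := by
    refine hU.unique ?_
    convert! hV using 1
    funext t
    ring
  have eU' : U' = V' := by
    refine hU'.unique ?_
    convert! hV' using 1
    funext t
    ring
  rw [eU] at tU
  rw [eU'] at tU'
  obtain ⟨hD, tD⟩ := diff_mean hW hW' hV hV' hK tU tU' tK
  have hms : ∀ δ : ℝ → ℝ, (fun X : ℝ => (∫ x in Real.exp 1..X, Real.log x * δ x *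
      (Real.log x * δ x) / x) / Real.log X) = meanSquare δ := by
    intro δ
    funext X
    unfold meanSquare
    congr 2
    funext x
    ring
  rw [hms] at tU tU'
  have tD' : Tendsto (meanSquare fun x => δ x - δ' x) atTop (𝓝 (V + V' - 2 * K)) := by
    refine tD.congr fun X => ?_
    unfold meanSquare
    congr 2
    funext x
    ring
  have hm0 : ∀ t : ℝ, mult Λ t = 0 ↔ Λ (1 + t * I) ≠ 0 := mult_zero_iff hΛ.1 hR
  have hm0' : ∀ t : ℝ, mult Λ' t = 0 ↔ Λ' (1 + t * I) ≠ 0 := mult_zero_iff hΛ'.1 hR'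
  have pos : ∀ {Λ : ℂ → ℂ} {V : ℝ}, HasSum (fun t : ℝ => ((mult Λ t : ℝ) / t) ^ 2) V →
      (∃ t : ℝ, t ≠ 0 ∧ mult Λ t ≠ 0) → 0 < V := by
    rintro Λ V hV ⟨t, ht, hm⟩
    have h3 : ((mult Λ t : ℝ) / t) ^ 2 ≤ V := le_hasSum hV t fun s _ => sq_nonneg _
    have h4 : ((mult Λ t : ℝ) / t) ≠ 0 := div_ne_zero (by exact_mod_cast hm) ht
    have h5 : 0 < ((mult Λ t : ℝ) / t) ^ 2 := by positivity
    linarith
  have hne : ∃ t : ℝ, t ≠ 0 ∧ mult Λ t ≠ 0 := by
    obtain ⟨t, ht, h0⟩ := hzero hR
    exact ⟨t, ht, fun h => (hm0 t).1 h h0⟩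
  have hne' : ∃ t : ℝ, t ≠ 0 ∧ mult Λ' t ≠ 0 := by
    obtain ⟨t, ht, h0⟩ := hzero' hR'
    exact ⟨t, ht, fun h => (hm0' t).1 h h0⟩
  have hVp := pos hV hne
  have hVp' := pos hV' hne'
  obtain ⟨c1, c2⟩ := cs hV hV' hK hVp'
  have hK0 : ∀ t : ℝ, 0 ≤ (mult Λ t : ℝ) * mult Λ' t / t ^ 2 := fun t => by positivity
  refine ⟨V, V', K, V + V' - 2 * K, hV, tU, hV', tU', hK, tK, hD, tD', hVp, hVp', hK.nonneg hK0, c1,
    ?_, ?_⟩
  · rw [sum_zero_iff hK hK0]
    constructor
    · rintro h t ht ⟨h1, h2⟩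
      have h3 := h t
      rw [div_eq_zero_iff] at h3
      rcases h3 with h3 | h3
      · rcases mul_eq_zero.1 h3 with h4 | h4
        · exact (hm0 t).1 (by exact_mod_cast h4) h1
        · exact (hm0' t).1 (by exact_mod_cast h4) h2
      · exact ht (pow_eq_zero_iff (two_ne_zero) |>.1 h3)
    · intro h t
      by_cases ht : t = 0
      · rw [ht]
        simp
      · have h1 := h t ht
        rw [not_and_or] at h1
        rcases h1 with h2 | h2
        · rw [(hm0 t).2 h2]
          simp
        · rw [(hm0' t).2 h2]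
          simp
  · have hΛN : Λ = LamN f := completed_eq hΛ.1 hΛ.2
    have hΛN' : Λ' = LamN f' := completed_eq hΛ'.1 hΛ'.2
    have hRN : ∀ s : ℂ, LamN f s = 0 → s.re = 1 := fun s hs => hR s (by rw [hΛN]; exact hs)
    have hRN' : ∀ s : ℂ, LamN f' s = 0 → s.re = 1 := fun s hs => hR' s (by rw [hΛN']; exact hs)
    have det : (∀ t : ℝ, t ≠ 0 → mult Λ t = mult Λ' t) →
        N = N' ∧ Λ = Λ' ∧ ∀ n : ℕ, n ≠ 0 → coef f n = coef f' n := by
      intro h
      rw [hΛN, hΛN']
      exact zeros_determine hf.fricke hf.sign hf.form.one hRN hf'.fricke hf'.sign hf'.form.one hRN'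
        fun t ht => by
          have := h t ht
          rw [hΛN, hΛN'] at this
          exact this
    have hD0 : V + V' - 2 * K = 0 ↔ ∀ t : ℝ, t ≠ 0 → mult Λ t = mult Λ' t := by
      rw [sum_zero_iff hD fun t => sq_nonneg _]
      constructor
      · intro h t ht
        have h1 := pow_eq_zero_iff (two_ne_zero) |>.1 (h t)
        rcases div_eq_zero_iff.1 h1 with h2 | h2
        · have h3 : (mult Λ t : ℝ) = mult Λ' t := by linarith
          exact_mod_cast h3
        · exact absurd h2 ht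
      · intro h t
        by_cases ht : t = 0
        · rw [ht]
          simp
        · rw [h t ht]
          simp
    tfae_have 1 → 5 := fun h => by
      obtain ⟨h1, -, h2⟩ := det (hD0.1 h)
      exact ⟨h1, h2⟩
    tfae_have 5 → 4 := by
      rintro ⟨-, h⟩
      obtain ⟨D₁, hD₁⟩ := good_of_large hΔ
      obtain ⟨D₂, hD₂⟩ := good_of_large hΔ'
      refine ⟨D₁ + D₂, fun p hp hlt => ?_⟩
      have h1 := hf.form.points p (hD₁ p hp (by omega))
      have h2 := hf'.form.points p (hD₂ p hp (by omega))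
      rw [h p hp.ne_zero, h2] at h1
      have h3 : (pointCount a' b' p : ℂ) = (pointCount a b p : ℂ) := by linear_combination -h1
      exact_mod_cast h3.symm
    tfae_have 4 → 1 := by
      intro h
      rw [hD0]
      intro t _
      unfold mult
      rw [← hlink _ (by simp), ← hlink' _ (by simp),
        same_mult hΔ hΔ' hF hF' hf.form hf'.form h (by simp)]
    tfae_have 1 → 3 := fun h => (det (hD0.1 h)).2.1
    tfae_have 3 → 1 := by
      intro h
      rw [hD0, h]
      exact fun t _ => rfl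
    tfae_have 1 → 2 := by
      intro h
      have h1 := hD0.1 h
      have h2 : V = V' := by
        refine hV.unique ?_
        convert! hV' using 1
        funext t
        by_cases ht : t = 0
        · rw [ht]
          simp
        · rw [h1 t ht]
      have h3 : K = V := by linarith
      rw [h3, ← h2, sq]
    tfae_have 2 → 1 := by
      intro h
      obtain ⟨l, hl⟩ := c2 h
      obtain ⟨t₀, ht₀, hm⟩ := hne'
      rw [hD0]
      set p : ℕ := mult Λ t₀ with hp
      set q : ℕ := mult Λ' t₀ with hq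
      have hq0 : (q : ℝ) ≠ 0 := by exact_mod_cast hm
      have hl' : l = p / q := by
        rw [eq_div_iff hq0]
        exact (hl t₀ ht₀).symm
      have hpq : ∀ t : ℝ, t ≠ 0 → q * mult Λ t = p * mult Λ' t := by
        intro t ht
        have h1 := hl t ht
        rw [hl'] at h1
        have h2 : (q : ℝ) * mult Λ t = p * mult Λ' t := by
          rw [h1]
          field_simp
        exact_mod_cast h2
      obtain ⟨-, -, -, -, -, heq⟩ := prop_eq hf.fricke hf.sign hf.form.one hRN hf'.fricke hf'.sign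
        hf'.form.one hRN' (p := p) (q := q) fun t ht => by
          have := hpq t ht
          rw [hΛN, hΛN'] at this
          exact this
      intro t ht
      have h1 := hpq t ht
      rw [heq] at h1
      refine Nat.eq_of_mul_eq_mul_left (Nat.pos_of_ne_zero ?_) h1
      rw [← heq]
      exact hm
    tfae_finish

end Pool.Agent.Results.MP_9c97e9_nt.CorrelationOfCurves
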